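import Mathlib
import Pool.Agent.H8.Fus
import Pool.Agent.H8.Luz

set_option autoImplicit false

namespace Pool.Agent.Results.MP_2087e7_lc.CH

open Set Filter Topology Function MeasureTheory Pool.Agent.H8.SG
open scoped Cardinal ENNReal

/-- F_σ set -/
def Fs (F : Set (ℕ → Bool)) : Prop :=
  ∃ C : ℕ → Set (ℕ → Bool), (∀ n, IsClosed (C n)) ∧ F = ⋃ n, C n

/-- universally null -/
def UN (A : Set (ℕ → Bool)) : Prop :=
  ∀ ν : Measure (ℕ → Bool), IsFiniteMeasure ν → (∀ x, ν {x} = 0) → ν A = 0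

/-- countably perfectly null -/
def PN (A : Set (ℕ → Bool)) : Prop :=
  ∀ ν : Measure (ℕ → Bool), IsFiniteMeasure ν → (∀ x, ν {x} = 0) → ∃ F, Fs F ∧ A ⊆ F ∧ ν F = 0

/-- countably perfectly meager -/
def PM (A : Set (ℕ → Bool)) : Prop :=
  ∀ P : ℕ → Set (ℕ → Bool), (∀ n, Perfect (P n)) →
    ∃ F, Fs F ∧ A ⊆ F ∧ ∀ n, IsMeagre (Subtype.val ⁻¹' F : Set (P n))

lemma nwd {P C : Set (ℕ → Bool)} (hP : Preperfect P) (hC : IsClosed C)
    (h : ∀ B, IsClopen B → (B ∩ P).Nontrivial → ¬ B ∩ P ⊆ C) :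
    IsMeagre (Subtype.val ⁻¹' C : Set P) := by
  refine ((hC.preimage continuous_subtype_val).isNowhereDense_iff.2
    (eq_empty_of_forall_notMem fun y hy => ?_)).isMeagre
  obtain ⟨_, h1, ⟨U, hU, rfl⟩, h2⟩ := mem_interior.1 hy
  obtain ⟨B, h3, h4, h5⟩ := isTopologicalBasis_isClopen.exists_subset_of_mem_open
    (show y.1 ∈ U from h2) hU
  obtain ⟨z, h6, h7⟩ := (accPt_iff_nhds.1 (hP y y.2)) B (h3.2.mem_nhds h4)
  exact h B h3 ⟨z, h6, y, ⟨h4, y.2⟩, h7⟩ fun w hw => h1 (a := ⟨w, hw.2⟩) (h5 hw.1)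

theorem result (h : Cardinal.continuum.{0} = Cardinal.aleph 1) : ∃ A, PM A ∧ UN A ∧ ¬ PN A := by
  let μ : Measure (ℕ → Bool) := Measure.addHaar
  haveI : (𝓝[≠] (0 : ℕ → Bool)).NeBot := by
    refine ⟨fun h => not_isMeagre_of_isOpen ((isOpen_singleton_iff_punctured_nhds _).2 h)
      (singleton_nonempty _) (ct_meagre (countable_singleton _))⟩
  have h0 : μ univ ≠ 0 := (isOpen_univ.measure_pos μ univ_nonempty).ne'
  refine (rec_CH h (J := ((ℕ → {U : Set (ℕ → Bool) // IsOpen U}) × Bool) ⊕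
      ({ν : Measure (ℕ → Bool) // IsFiniteMeasure ν} × ℕ))
    (by
      rw [Cardinal.mk_sum, Cardinal.lift_id, Cardinal.lift_id, ← Cardinal.continuum_add_self]
      exact add_le_add (card_prod (card_seq _ (card_open _)) (card_ct _))
        (card_prod card_meas (card_ct _))) (Gs μ)
    (fun j S => match j with
      | .inl (U, true) => (∀ n, μ (U n).1ᶜ = 0) → ∃ x, .p x ∈ S ∧ ∀ n, x ∉ (U n).1ᶜ
      | .inl (U, false) => ∃ C, .c C ∈ S ∧ ∀ n, IsClosed (C n) ∧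
          ∀ m B, IsClopen B → (B ∩ (U m).1ᶜ).Nontrivial → ¬ B ∩ (U m).1ᶜ ⊆ C n
      | .inr (ν, n) => (∀ x, ν.1 {x} = 0) → ∃ O, .o O ∈ S ∧ ν.1 O < (n : ℝ≥0∞)⁻¹)
    (S₀ := {.k univ}) (countable_singleton _) ?_ ?_ ?_).elim fun S ⟨_, hG, hT⟩ => ?_
  rotate_right
  · refine ⟨Am.p ⁻¹' S, fun P hP => ?_, fun ν h1 h2 => ?_, fun H => ?_⟩
    · obtain ⟨S', h1, C, h2, h3⟩ := hT (.inl (fun n => ⟨(P n)ᶜ, (hP n).closed.isOpen_compl⟩, false))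
      simp only [compl_compl] at h3
      refine ⟨_, ⟨C, fun n => (h3 n).1, rfl⟩, fun x hx => mem_iUnion.2 (hG.pc x C hx (h1 h2)),
        fun m => ?_⟩
      rw [preimage_iUnion]
      exact isMeagre_iUnion fun n => nwd (hP m).acc (h3 n).1 ((h3 n).2 m)
    · by_contra h3
      obtain ⟨n, hn⟩ := ENNReal.exists_inv_nat_lt h3
      obtain ⟨S', h4, h5⟩ := hT (.inr (⟨ν, h1⟩, n))
      obtain ⟨O, h6, h7⟩ := h5 h2
      exact not_le.2 (h7.trans hn) (measure_mono fun x hx => hG.po x O hx (h4 h6))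
    · obtain ⟨_, ⟨C, h1, rfl⟩, h2, h3⟩ := H μ inferInstance fun x => measure_singleton x
      obtain ⟨S', h4, h5⟩ := hT (.inl (fun n => ⟨(C n)ᶜ, (h1 n).isOpen_compl⟩, true))
      simp only [compl_compl] at h5
      obtain ⟨x, h6, h7⟩ := h5 fun n => measure_mono_null (subset_iUnion C n) h3
      obtain ⟨n, hn⟩ := mem_iUnion.1 (h2 (h4 h6))
      exact h7 n hn
  · exact ⟨by simp, by simp, by simp, by simp, by simp, by simp⟩
  · intro c _ h1 h2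
    have two : ∀ p ∈ ⋃₀ c, ∀ q ∈ ⋃₀ c, ∃ s ∈ c, p ∈ s ∧ q ∈ s := by
      rintro p ⟨s, h3, h4⟩ q ⟨t, h5, h6⟩
      rcases h1.total h3 h5 with h | h
      exacts [⟨t, h5, h h4, h6⟩, ⟨s, h3, h4, h h6⟩]
    refine ⟨fun _ ⟨s, h3, h4⟩ => (h2 s h3).k _ h4, fun _ ⟨s, h3, h4⟩ => (h2 s h3).o _ h4,
      fun _ _ h3 h4 => ?_, fun _ _ h3 h4 => ?_, fun _ _ h3 h4 => ?_, fun _ _ h3 h4 => ?_⟩ <;>
      obtain ⟨s, h5, h6, h7⟩ := two _ h3 _ h4
    exacts [(h2 s h5).ko _ _ h6 h7, fun ε hε => ((h2 s h5).kc _ _ h6 h7 ε hε).imp fun _ h =>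
      ⟨⟨s, h5, h.1⟩, h.2⟩, (h2 s h5).po _ _ h6 h7, (h2 s h5).pc _ _ h6 h7]
  · rintro S h1 hc hG (⟨U, _ | _⟩ | ⟨ν, n⟩)
    · obtain ⟨S', h2, h3, h4, C, h5, h6⟩ := hG.addC hc
        (𝒟 := {D | D ∈ image2 (fun B m => B ∩ (U m).1ᶜ) {V | IsClopen V} univ ∧ D.Nontrivial})
        ((clop_ct.image2 countable_univ _).mono fun _ h => h.1) fun _ h => h.2
      exact ⟨S', h2, h3, h4, C, h5, fun n => ⟨(h6 n).1, fun m B h7 h8 =>
        (h6 n).2 _ ⟨⟨B, h7, m, trivial, rfl⟩, h8⟩⟩⟩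
    · by_cases H : ∀ n, μ (U n).1ᶜ = 0
      · obtain ⟨x, h2, h3⟩ := hG.addP hc h0 (h1 rfl) fun n => ⟨(U n).2.isClosed_compl, H n⟩
        exact ⟨_, subset_insert _ _, hc.insert _, h2, fun _ => ⟨x, mem_insert _ _, h3⟩⟩
      · exact ⟨S, Subset.rfl, hc, hG, fun h => absurd h H⟩
    · by_cases H : ∀ x, ν.1 {x} = 0
      · haveI := ν.2
        haveI : NullSingletonClass ν.1 := ⟨H⟩
        obtain ⟨O, h2, h3⟩ := hG.addO hc ν.1 (ε := (n : ℝ≥0∞)⁻¹) (by simp)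
        exact ⟨_, subset_insert _ _, hc.insert _, h2, fun _ => ⟨O, mem_insert _ _, h3⟩⟩
      · exact ⟨S, Subset.rfl, hc, hG, fun h => absurd h H⟩

end Pool.Agent.Results.MP_2087e7_lc.CH
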